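import Pool.Agent.Q87.Ballean.Prefix

/-!
# A group whose finitary ballean is so-bounded but not bo-bounded
-/

open Filter Topology Pool.Agent.Q87.Ballean

namespace Pool.Agent.Results.MP_769d7c_al.SoNotBo

/-- The ball `E_F[x] = {x} ∪ F x`. -/
def ball {G : Type} [Group G] (F : Set G) (x : G) : Set G := {x} ∪ {y | ∃ s ∈ F, y = s * x}

/-- Boundedly oscillating functions. -/
def BoundedlyOscillating {G : Type} [Group G] (f : G → ℝ) : Prop :=
  ∃ C > 0, ∀ F : Set G, F.Finite → ∃ B : Set G, B.Finite ∧
    ∀ x ∉ B, Metric.diam (f '' ball F x) < C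

/-- Slowly oscillating functions. -/
def SlowlyOscillating {G : Type} [Group G] (f : G → ℝ) : Prop :=
  ∀ F : Set G, F.Finite → ∀ ε > 0, ∃ B : Set G, B.Finite ∧
    ∀ x ∉ B, Metric.diam (f '' ball F x) < ε

/-- Bounded outside a finite set. -/
def BoundedOff {G : Type} (f : G → ℝ) : Prop :=
  ∃ B : Set G, B.Finite ∧ ∃ M : ℝ, ∀ x ∉ B, |f x| ≤ M

/-- The finitary ballean is bo-bounded. -/
def BoBounded (G : Type) [Group G] : Prop := ∀ f : G → ℝ, BoundedlyOscillating f → BoundedOff f

/-- The finitary ballean is so-bounded. -/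
def SoBounded (G : Type) [Group G] : Prop := ∀ f : G → ℝ, SlowlyOscillating f → BoundedOff f

lemma ball_finite {G : Type} [Group G] {F : Set G} (hF : F.Finite) (x : G) :
    (ball F x).Finite := by
  refine (Set.finite_singleton x).union ?_
  have : {y | ∃ s ∈ F, y = s * x} = (fun s => s * x) '' F := by
    ext y
    constructor
    · rintro ⟨s, hs, rfl⟩
      exact ⟨s, hs, rfl⟩
    · rintro ⟨s, hs, rfl⟩
      exact ⟨s, hs, rfl⟩
  rw [this]
  exact hF.image _

lemma slow_single {G : Type} [Group G] {f : G → ℝ} (hf : SlowlyOscillating f) (s : G) :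
    Tendsto (fun x => f (s * x) - f x) cofinite (𝓝 0) := by
  rw [Metric.tendsto_nhds]
  intro ε hε
  obtain ⟨B, hB, h⟩ := hf {s} (Set.finite_singleton s) ε hε
  rw [eventually_cofinite]
  refine hB.subset ?_
  intro x hx
  by_contra hxB
  apply hx
  have h1 := h x hxB
  refine lt_of_le_of_lt ?_ h1
  rw [Real.dist_eq, sub_zero, ← Real.dist_eq]
  apply Metric.dist_le_diam_of_mem
  · exact ((ball_finite (Set.finite_singleton s) x).image f).isBounded
  · exact ⟨s * x, Or.inr ⟨s, rfl, rfl⟩, rfl⟩
  · exact ⟨x, Or.inl rfl, rfl⟩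

/-- On an uncountable commutative group slowly oscillating functions converge at infinity. -/
lemma converges {A : Type} [CommGroup A] [Uncountable A] (ψ : A → ℝ)
    (h : ∀ b, Tendsto (fun a => ψ (b * a) - ψ a) cofinite (𝓝 0)) :
    ∃ c, Tendsto ψ cofinite (𝓝 c) := by
  classical
  have hfin : ∀ b (ε : ℝ), 0 < ε → {a | ε ≤ |ψ (b * a) - ψ a|}.Finite := by
    intro b ε hε
    have := (Metric.tendsto_nhds.1 (h b)) ε hε
    rw [eventually_cofinite] at this
    refine this.subset ?_
    intro a ha
    show ¬ dist (ψ (b * a) - ψ a) 0 < ε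
    rw [Real.dist_eq, sub_zero, not_lt]
    exact ha
  have hcauchy : Cauchy (map ψ cofinite) := by
    rw [Metric.cauchy_iff]
    refine ⟨inferInstance, ?_⟩
    intro ε hε
    by_contra hcon
    push Not at hcon
    have hpair : ∀ E : Finset A, ∃ p : A × A, p.1 ∉ E ∧ p.2 ∉ E ∧ ε ≤ |ψ p.1 - ψ p.2| := by
      intro E
      have hmem : ψ '' ((E : Set A)ᶜ) ∈ map ψ cofinite := by
        rw [mem_map]
        refine mem_of_superset (E.finite_toSet.compl_mem_cofinite) ?_
        exact Set.subset_preimage_image _ _
      obtain ⟨_, ⟨a, ha, rfl⟩, _, ⟨b, hb, rfl⟩, hab⟩ := hcon _ hmem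
      exact ⟨(a, b), ha, hb, hab⟩
    choose p hp1 hp2 hp3 using hpair
    let E : ℕ → Finset A := fun n => Nat.rec ∅ (fun _ S => insert (p S).1 (insert (p S).2 S)) n
    have hE : ∀ n, E (n + 1) = insert (p (E n)).1 (insert (p (E n)).2 (E n)) := fun n => rfl
    have hmono : ∀ n m, n ≤ m → E n ⊆ E m := by
      intro n m hnm
      induction m, hnm using Nat.le_induction with
      | base => exact Finset.Subset.refl _
      | succ m _ ih =>
        rw [hE]
        exact ih.trans ((Finset.subset_insert _ _).trans (Finset.subset_insert _ _))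
    have hin1 : ∀ n m, n < m → (p (E n)).1 ∈ E m := by
      intro n m hnm
      apply hmono (n + 1) m hnm
      rw [hE]; exact Finset.mem_insert_self _ _
    have hin2 : ∀ n m, n < m → (p (E n)).2 ∈ E m := by
      intro n m hnm
      apply hmono (n + 1) m hnm
      rw [hE]; exact Finset.mem_insert_of_mem (Finset.mem_insert_self _ _)
    have inj1 : Function.Injective (fun n => (p (E n)).1) := by
      intro n m hnm
      have hnm' : (p (E n)).1 = (p (E m)).1 := hnm
      rcases lt_trichotomy n m with h1 | h1 | h1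
      · have h2 := hin1 n m h1
        rw [hnm'] at h2
        exact absurd h2 (hp1 _)
      · exact h1
      · have h2 := hin1 m n h1
        rw [← hnm'] at h2
        exact absurd h2 (hp1 _)
    have inj2 : Function.Injective (fun n => (p (E n)).2) := by
      intro n m hnm
      have hnm' : (p (E n)).2 = (p (E m)).2 := hnm
      rcases lt_trichotomy n m with h1 | h1 | h1
      · have h2 := hin2 n m h1
        rw [hnm'] at h2
        exact absurd h2 (hp2 _)
      · exact h1
      · have h2 := hin2 m n h1
        rw [← hnm'] at h2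
        exact absurd h2 (hp2 _)
    have hcount : (⋃ n, ({a | ε / 4 ≤ |ψ ((p (E n)).1 * a) - ψ a|} ∪
        {a | ε / 4 ≤ |ψ ((p (E n)).2 * a) - ψ a|})).Countable := by
      apply Set.countable_iUnion
      intro n
      exact ((hfin _ _ (by positivity)).union (hfin _ _ (by positivity))).countable
    obtain ⟨c, hc⟩ : ∃ c, c ∉ (⋃ n, ({a | ε / 4 ≤ |ψ ((p (E n)).1 * a) - ψ a|} ∪
        {a | ε / 4 ≤ |ψ ((p (E n)).2 * a) - ψ a|})) := by
      by_contra hcon
      push Not at hcon
      have : (Set.univ : Set A).Countable := hcount.mono (fun a _ => hcon a)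
      exact not_countable (Set.countable_univ_iff.1 this)
    have hZ := hfin c (ε / 4) (by positivity)
    have hfin12 : ({n | (p (E n)).1 ∈ {a | ε / 4 ≤ |ψ (c * a) - ψ a|}} ∪
        {n | (p (E n)).2 ∈ {a | ε / 4 ≤ |ψ (c * a) - ψ a|}}).Finite :=
      (hZ.preimage inj1.injOn).union (hZ.preimage inj2.injOn)
    obtain ⟨n, hn⟩ := hfin12.infinite_compl.nonempty
    simp only [Set.mem_compl_iff, Set.mem_union, Set.mem_setOf_eq, not_or, not_le] at hn
    simp only [Set.mem_iUnion, Set.mem_union, Set.mem_setOf_eq, not_exists, not_or, not_le] at hc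
    obtain ⟨q1, q2⟩ := hn
    obtain ⟨q3, q4⟩ := hc n
    have q5 := hp3 (E n)
    rw [mul_comm] at q1 q2
    have : |ψ (p (E n)).1 - ψ (p (E n)).2| < ε := by
      rw [abs_lt] at *
      constructor <;> linarith [q1.1, q1.2, q2.1, q2.2, q3.1, q3.2, q4.1, q4.2]
    linarith
  obtain ⟨c, hc⟩ := CompleteSpace.complete hcauchy
  exact ⟨c, hc⟩

/-- The abelian group of integer sequences, written multiplicatively. -/
abbrev A : Type := Multiplicative (ℕ → ℤ)

instance : Uncountable A := by
  rw [← not_countable_iff]
  intro h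
  obtain ⟨e, he⟩ := exists_surjective_nat A
  obtain ⟨n, hn⟩ := he (Multiplicative.ofAdd (fun n => Multiplicative.toAdd (e n) n + 1))
  have h1 : Multiplicative.toAdd (e n) n = Multiplicative.toAdd (e n) n + 1 := by
    conv_lhs => rw [hn]
    rfl
  omega

/-- Letters: `(i, v)` stands for the coset of `ℤ e_i` whose coordinates different from the `i`-th
one are given by `v`. -/
abbrev X : Type := ℕ × (ℕ → ℤ)

/-- Enumeration of the coordinates different from `i`. -/
def sk (i k : ℕ) : ℕ := if k < i then k else k + 1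

/-- Translation of the letters. -/
def tr (a : A) : X ≃ X where
  toFun p := (p.1, fun k => p.2 k + Multiplicative.toAdd a (sk p.1 k))
  invFun p := (p.1, fun k => p.2 k - Multiplicative.toAdd a (sk p.1 k))
  left_inv p := by ext <;> simp
  right_inv p := by ext <;> simp

lemma tr_mul (a b : A) : tr (a * b) = (tr b).trans (tr a) := by
  ext p k
  · rfl
  · show p.2 k + (Multiplicative.toAdd a (sk p.1 k) + Multiplicative.toAdd b (sk p.1 k)) =
      p.2 k + Multiplicative.toAdd b (sk p.1 k) + Multiplicative.toAdd a (sk p.1 k)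
    ring

/-- The action on the free group. -/
def act : A →* MulAut (FreeGroup X) where
  toFun a := FreeGroup.freeGroupCongr (tr a)
  map_one' := by
    have : tr 1 = Equiv.refl X := by
      ext p k
      · rfl
      · show p.2 k + 0 = p.2 k
        ring
    rw [this, FreeGroup.freeGroupCongr_refl]
    rfl
  map_mul' a b := by
    rw [tr_mul, ← FreeGroup.freeGroupCongr_trans]
    rfl

/-- The group. -/
abbrev G : Type := FreeGroup X ⋊[act] A

/-- The base letter of type `i`. -/
def z (i : ℕ) : X × Bool := ((i, 0), true)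

/-- The function: length of the common prefix with the ray. -/
noncomputable def fn (g : G) : ℕ := by
  classical exact cp z 0 (g⁻¹).left.toWord

lemma sk_ne {i k : ℕ} (h : k ≠ i) : ∃ l, sk i l = k := by
  by_cases hk : k < i
  · exact ⟨k, if_pos hk⟩
  · exact ⟨k - 1, by unfold sk; rw [if_neg (by omega)]; omega⟩

/-- Left multiplication by `s` raises the function by at least two at finitely many points. -/
lemma bad_finite (s : G) : {g : G | fn g + 2 ≤ fn (s * g)}.Finite := by
  classical
  set s' : List (X × Bool) := (s⁻¹).left.toWord with hs'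
  let Q : ℕ → Set G := fun j => {g : G | fn g + 2 ≤ fn (s * g) ∧
    (act (g⁻¹).right (s⁻¹).left).toWord[j]? = some (z (fn g)) ∧
    (act (g⁻¹).right (s⁻¹).left).toWord[j + 1]? = some (z (fn g + 1)) ∧
    (g⁻¹).left.toWord = seg z 0 (fn g) ++
      FreeGroup.invRev ((act (g⁻¹).right (s⁻¹).left).toWord.take j)}
  have hw : ∀ a : A, (act a (s⁻¹).left).toWord = s'.map (fun p => (tr a p.1, p.2)) := by
    intro a
    have := toWord_congr (tr a) (s⁻¹).left
    convert! this using 1
  have hsub : {g : G | fn g + 2 ≤ fn (s * g)} ⊆ ⋃ j ∈ Finset.range s'.length, Q j := by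
    intro g hg
    have h1 : ((s * g)⁻¹).left = (g⁻¹).left * act (g⁻¹).right (s⁻¹).left := by
      rw [mul_inv_rev]; rfl
    have h2 : cp z 0 (g⁻¹).left.toWord + 2 ≤
        cp z 0 ((g⁻¹).left * act (g⁻¹).right (s⁻¹).left).toWord := by
      rw [← h1]
      have hg' : fn g + 2 ≤ fn (s * g) := hg
      unfold fn at hg'
      convert! hg'
    obtain ⟨j, hj1, hj2, hj3⟩ := key z _ _ h2
    have hfn : fn g = cp z 0 (g⁻¹).left.toWord := by
      unfold fn
      congr!
    have hj : j < s'.length := by
      by_contra hcon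
      have h3 : (act (g⁻¹).right (s⁻¹).left).toWord[j]? = none := by
        rw [hw, List.getElem?_eq_none_iff, List.length_map]
        omega
      rw [h3] at hj1
      simp at hj1
    rw [← hfn] at hj1 hj2 hj3
    simp only [Set.mem_iUnion]
    exact ⟨j, Finset.mem_range.2 hj, hg, hj1, hj2, hj3⟩
  refine Set.Finite.subset ?_ hsub
  refine Set.Finite.biUnion (Finset.finite_toSet _) ?_
  intro j _
  apply Set.Subsingleton.finite
  intro g hg g' hg'
  obtain ⟨-, h1, h2, h3⟩ := hg
  obtain ⟨-, h1', h2', h3'⟩ := hg'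
  rw [hw, List.getElem?_map, Option.map_eq_some_iff] at h1 h2 h1' h2'
  obtain ⟨y, hy, hy1⟩ := h1
  obtain ⟨y', hy', hy1'⟩ := h1'
  obtain ⟨x, hx, hx1⟩ := h2
  obtain ⟨x', hx', hx1'⟩ := h2'
  obtain rfl : y = y' := by rw [hy] at hy'; exact Option.some_injective _ hy'
  obtain rfl : x = x' := by rw [hx] at hx'; exact Option.some_injective _ hx'
  have e1 : y.1.1 = fn g := congrArg (fun t : X × Bool => t.1.1) hy1
  have e1' : y.1.1 = fn g' := congrArg (fun t : X × Bool => t.1.1) hy1'
  have e2 : x.1.1 = fn g + 1 := congrArg (fun t : X × Bool => t.1.1) hx1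
  have hfn : fn g = fn g' := e1.symm.trans e1'
  have hright : (g⁻¹).right = (g'⁻¹).right := by
    apply Multiplicative.toAdd.injective
    have k1 : ∀ k, Multiplicative.toAdd (g⁻¹).right (sk y.1.1 k) =
        Multiplicative.toAdd (g'⁻¹).right (sk y.1.1 k) := by
      intro k
      have f1 := congrArg (fun t : X × Bool => t.1.2 k) hy1
      have f2 := congrArg (fun t : X × Bool => t.1.2 k) hy1'
      have f3 : y.1.2 k + Multiplicative.toAdd (g⁻¹).right (sk y.1.1 k) = 0 := f1
      have f4 : y.1.2 k + Multiplicative.toAdd (g'⁻¹).right (sk y.1.1 k) = 0 := f2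
      linarith
    have k2 : ∀ k, Multiplicative.toAdd (g⁻¹).right (sk x.1.1 k) =
        Multiplicative.toAdd (g'⁻¹).right (sk x.1.1 k) := by
      intro k
      have f1 := congrArg (fun t : X × Bool => t.1.2 k) hx1
      have f2 := congrArg (fun t : X × Bool => t.1.2 k) hx1'
      have f3 : x.1.2 k + Multiplicative.toAdd (g⁻¹).right (sk x.1.1 k) = 0 := f1
      have f4 : x.1.2 k + Multiplicative.toAdd (g'⁻¹).right (sk x.1.1 k) = 0 := f2
      linarith
    funext m
    by_cases hm : m = y.1.1
    · obtain ⟨l, hl⟩ := sk_ne (i := x.1.1) (k := m) (by omega)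
      rw [← hl]; exact k2 l
    · obtain ⟨l, hl⟩ := sk_ne (i := y.1.1) (k := m) hm
      rw [← hl]; exact k1 l
  have hleft : (g⁻¹).left = (g'⁻¹).left := by
    apply FreeGroup.toWord_injective
    rw [h3, h3', hfn, hright]
  exact inv_injective (SemidirectProduct.ext hleft hright)

lemma fn_unbounded (n : ℕ) : ∃ g : G, fn g = n := by
  classical
  refine ⟨(SemidirectProduct.inl (FreeGroup.mk (seg z 0 n)))⁻¹, ?_⟩
  have h1 : fn (SemidirectProduct.inl (FreeGroup.mk (seg z 0 n)) : G)⁻¹ =
      cp z 0 (FreeGroup.mk (seg z 0 n)).toWord := by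
    unfold fn
    rw [inv_inv, SemidirectProduct.left_inl]
  rw [h1, FreeGroup.toWord_mk]
  have hred : FreeGroup.IsReduced (seg z 0 n) := by
    have hall : ∀ k i, ∀ c ∈ seg z i k, c.2 = true := by
      intro k
      induction k with
      | zero => intro i c hc; simp [seg] at hc
      | succ k ih =>
        intro i c hc
        rw [seg, List.mem_cons] at hc
        rcases hc with rfl | hc
        · rfl
        · exact ih _ _ hc
    unfold FreeGroup.IsReduced
    apply List.Pairwise.isChain
    rw [List.pairwise_iff_forall_sublist]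
    intro a b hab _
    have ha : a ∈ seg z 0 n := hab.subset (by simp)
    have hb : b ∈ seg z 0 n := hab.subset (by simp)
    rw [hall _ _ a ha, hall _ _ b hb]
  rw [hred.reduce_eq, cp_seg]

lemma not_bo : ¬ BoBounded G := by
  intro h
  have hosc : BoundedlyOscillating (fun g : G => (fn g : ℝ)) := by
    refine ⟨3, by norm_num, ?_⟩
    intro F hF
    refine ⟨⋃ s ∈ F, ({g : G | fn g + 2 ≤ fn (s * g)} ∪
      (fun g => s⁻¹ * g) '' {g : G | fn g + 2 ≤ fn (s⁻¹ * g)}), ?_, ?_⟩
    · exact hF.biUnion (fun s _ => (bad_finite s).union ((bad_finite s⁻¹).image _))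
    · intro x hx
      simp only [Set.mem_iUnion, not_exists] at hx
      have key : ∀ y ∈ ball F x, |(fn y : ℝ) - fn x| ≤ 1 := by
        rintro y (rfl | ⟨s, hs, rfl⟩)
        · simp
        · have h1 := hx s hs
          rw [Set.mem_union, not_or] at h1
          have h2 : ¬ (fn x + 2 ≤ fn (s * x)) := h1.1
          have h3 : ¬ (fn (s * x) + 2 ≤ fn x) := by
            intro h3
            apply h1.2
            refine ⟨s * x, ?_, by group⟩
            show fn (s * x) + 2 ≤ fn (s⁻¹ * (s * x))
            rwa [inv_mul_cancel_left]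
          have h4 : fn (s * x) ≤ fn x + 1 := by omega
          have h5 : fn x ≤ fn (s * x) + 1 := by omega
          have h4' : (fn (s * x) : ℝ) ≤ fn x + 1 := by exact_mod_cast h4
          have h5' : (fn x : ℝ) ≤ fn (s * x) + 1 := by exact_mod_cast h5
          rw [abs_le]
          constructor <;> linarith
      refine lt_of_le_of_lt (Metric.diam_le_of_forall_dist_le (C := 2) (by norm_num) ?_)
        (by norm_num)
      rintro _ ⟨y, hy, rfl⟩ _ ⟨y', hy', rfl⟩
      have k1 := abs_le.1 (key y hy)
      have k2 := abs_le.1 (key y' hy')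
      rw [Real.dist_eq, abs_le]
      constructor <;> linarith [k1.1, k1.2, k2.1, k2.2]
  obtain ⟨B, hB, M, hM⟩ := h _ hosc
  obtain ⟨N, hN⟩ : ∃ N : ℕ, ∀ g ∈ B, fn g ≤ N := by
    obtain ⟨N, hN⟩ := (hB.image fn).bddAbove
    exact ⟨N, fun g hg => hN ⟨g, hg, rfl⟩⟩
  obtain ⟨K, hK⟩ := exists_nat_gt M
  obtain ⟨g, hg⟩ := fn_unbounded (max (N + 1) K)
  have hgB : g ∉ B := fun hgB => by
    have := hN g hgB
    rw [hg] at this
    have := le_max_left (N + 1) K
    omega
  have h1 := hM g hgB
  have h2 : (K : ℝ) ≤ fn g := by rw [hg]; exact_mod_cast le_max_right _ _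
  rw [abs_le] at h1
  linarith [h1.2]

open SemidirectProduct in
lemma so : SoBounded G := by
  intro f hf
  have hconv : ∀ g : G, ∃ c, Tendsto (fun a : A => f (inr a * g)) cofinite (𝓝 c) := by
    intro g
    apply converges
    intro b
    have h1 := slow_single hf (inr b)
    have hinj : Function.Injective (fun a : A => (inr a * g : G)) := by
      intro a a' h
      exact inr_injective (mul_right_cancel h)
    have h2 := h1.comp hinj.tendsto_cofinite
    refine h2.congr ?_
    intro a
    show f (inr b * (inr a * g)) - f (inr a * g) = _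
    rw [map_mul, mul_assoc]
  choose c hc using hconv
  have hcA : ∀ (b : A) (g : G), c (inr b * g) = c g := by
    intro b g
    have h1 : Tendsto (fun a : A => f (inr (a * b) * g)) cofinite (𝓝 (c g)) :=
      (hc g).comp (mul_left_injective b).tendsto_cofinite
    have h2 : Tendsto (fun a : A => f (inr (a * b) * g)) cofinite (𝓝 (c (inr b * g))) := by
      refine (hc (inr b * g)).congr ?_
      intro a
      rw [map_mul, mul_assoc]
    exact tendsto_nhds_unique h2 h1
  have hcX : ∀ (x : X) (g : G), c (inl (FreeGroup.of x) * g) = c g := by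
    intro x g
    let e : ℕ → A := fun n => Multiplicative.ofAdd (Pi.single x.1 (n : ℤ))
    have he : Function.Injective e := by
      intro n m hnm
      have h1 : (Pi.single x.1 (n : ℤ) : ℕ → ℤ) = Pi.single x.1 (m : ℤ) :=
        Multiplicative.ofAdd.injective hnm
      have := Pi.single_injective x.1 h1
      exact_mod_cast this
    have hfix : ∀ n, tr (e n) x = x := by
      intro n
      apply Prod.ext
      · rfl
      · funext k
        show x.2 k + (Pi.single x.1 (n : ℤ) : ℕ → ℤ) (sk x.1 k) = x.2 k
        rw [Pi.single_eq_of_ne, add_zero]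
        unfold sk
        split_ifs <;> omega
    have hcomm : ∀ n, (inr (e n) * inl (FreeGroup.of x) : G) = inl (FreeGroup.of x) * inr (e n) := by
      intro n
      have h1 : act (e n) (FreeGroup.of x) = FreeGroup.of x := by
        show FreeGroup.freeGroupCongr (tr (e n)) (FreeGroup.of x) = FreeGroup.of x
        show FreeGroup.map (tr (e n)) (FreeGroup.of x) = FreeGroup.of x
        rw [FreeGroup.map.of, hfix]
      apply SemidirectProduct.ext
      · simp [h1]
      · simp
    have t1 : Tendsto (fun n => f (inr (e n) * (inl (FreeGroup.of x) * g))) cofinite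
        (𝓝 (c (inl (FreeGroup.of x) * g))) := (hc _).comp he.tendsto_cofinite
    have t2 : Tendsto (fun n => f (inr (e n) * g)) cofinite (𝓝 (c g)) :=
      (hc g).comp he.tendsto_cofinite
    have hinj : Function.Injective (fun n => (inr (e n) * g : G)) := by
      intro a a' h
      exact he (inr_injective (mul_right_cancel h))
    have t3 := (slow_single hf (inl (FreeGroup.of x))).comp hinj.tendsto_cofinite
    have t4 := t3.add t2
    rw [zero_add] at t4
    refine tendsto_nhds_unique (t1.congr ?_) t4
    intro n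
    show f (inr (e n) * (inl (FreeGroup.of x) * g)) =
      f (inl (FreeGroup.of x) * (inr (e n) * g)) - f (inr (e n) * g) + f (inr (e n) * g)
    rw [← mul_assoc, hcomm, mul_assoc]
    ring
  have hcF : ∀ (w : FreeGroup X) (g : G), c (inl w * g) = c g := by
    intro w
    induction w using FreeGroup.induction_on with
    | C1 => intro g; simp
    | of x => exact hcX x
    | inv_of x _ =>
      intro g
      have := hcX x ((inl (FreeGroup.of x))⁻¹ * g)
      rw [mul_inv_cancel_left] at this
      rw [map_inv]
      exact this.symm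
    | mul u v hu hv => intro g; rw [map_mul, mul_assoc, hu, hv]
  have hall : ∀ g : G, c g = c 1 := by
    intro g
    have : g = inl g.left * (inr g.right * 1) := by
      rw [mul_one, inl_left_mul_inr_right]
    rw [this, hcF, hcA]
  refine ⟨∅, Set.finite_empty, ?_⟩
  by_contra hcon
  push Not at hcon
  choose! g hg using fun n : ℕ => hcon (n : ℝ)
  have hcount : (⋃ n, {a : A | ¬ dist (f (inr a * g n)) (c 1) < 1}).Countable := by
    apply Set.countable_iUnion
    intro n
    have h1 := hc (g n)
    rw [hall] at h1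
    have h2 := Metric.tendsto_nhds.1 h1 1 one_pos
    rw [eventually_cofinite] at h2
    exact h2.countable
  obtain ⟨b, hb⟩ : ∃ b, b ∉ (⋃ n, {a : A | ¬ dist (f (inr a * g n)) (c 1) < 1}) := by
    by_contra hcon
    push Not at hcon
    have : (Set.univ : Set A).Countable := by
      refine hcount.mono (fun a _ => ?_)
      simpa using hcon a
    exact not_countable (Set.countable_univ_iff.1 this)
  simp only [Set.mem_iUnion, Set.mem_setOf_eq, not_exists, not_not] at hb
  have h3 := Metric.tendsto_nhds.1 (slow_single hf (inr b)) 1 one_pos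
  rw [eventually_cofinite] at h3
  obtain ⟨M, hM⟩ := (h3.image (fun x => |f x|)).bddAbove
  obtain ⟨n, hn⟩ := exists_nat_gt (max M (|c 1| + 2))
  have h4 : (n : ℝ) < |f (g n)| := (hg n).2
  have h5 : ¬ ¬ dist (f (inr b * g n) - f (g n)) 0 < 1 := by
    intro h5
    have := hM ⟨g n, h5, rfl⟩
    have h6 := (le_max_left M (|c 1| + 2)).trans_lt hn
    simp only [] at this
    linarith
  rw [not_not, Real.dist_eq, sub_zero] at h5
  have h6 := hb n
  rw [Real.dist_eq] at h6
  have h7 := (le_max_right M (|c 1| + 2)).trans_lt hn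
  have h8 : |f (g n)| ≤ |f (inr b * g n) - f (g n)| + |f (inr b * g n) - c 1| + |c 1| := by
    have : f (g n) = -(f (inr b * g n) - f (g n)) + (f (inr b * g n) - c 1) + c 1 := by ring
    calc |f (g n)| = |-(f (inr b * g n) - f (g n)) + (f (inr b * g n) - c 1) + c 1| := by
          rw [← this]
      _ ≤ |-(f (inr b * g n) - f (g n)) + (f (inr b * g n) - c 1)| + |c 1| := abs_add_le _ _
      _ ≤ |-(f (inr b * g n) - f (g n))| + |(f (inr b * g n) - c 1)| + |c 1| := by
          have := abs_add_le (-(f (inr b * g n) - f (g n))) (f (inr b * g n) - c 1)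
          linarith
      _ = _ := by rw [abs_neg]
  linarith

/-- There is a group whose finitary ballean is so-bounded but not bo-bounded. -/
theorem result : ∃ (G : Type) (_ : Group G), SoBounded G ∧ ¬ BoBounded G :=
  ⟨G, inferInstance, so, not_bo⟩

end Pool.Agent.Results.MP_769d7c_al.SoNotBo
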